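import Mathlib
import Pool.Agent.K9h27.LI.Main

/-!
# `L^γ[0,1]` is a Lipschitz interpolation space between `L^β[0,1]` and `L^α[0,1]`

For all real exponents `1 ≤ β < γ < α` the space `L^γ[0,1]` is a Lipschitz interpolation space between
`L^β[0,1]` and `L^α[0,1]`, with the constant `2 (γ/(γ-β) + γ/(α-γ))^{1/γ}`.

Proof. Since `L^α` is dense in `L^β` and `U` is continuous on `L^β`, Fatou's lemma shows that
`‖U(y+h) - U(y)‖_α ≤ M₁ ‖h‖_α` for all `y` in `L^β` and `h` in `L^α`. Let `x - y = z` and let `z₁` be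
`z` where `|z| < t` and `0` elsewhere. The difference `Ux - Uy` is the sum of `Ux - U(y + z₁)`, which is
estimated in `L^β`, and of `U(y + z₁) - Uy`, which is estimated in `L^α`. Chebyshev's inequality and
integration over `t` give the claim.
-/

set_option autoImplicit false

open MeasureTheory NNReal

namespace Pool.Agent.Results.MP_6e3e44_an.LipschitzInterpolation

/-- Lebesgue measure on `[0,1]`. -/
noncomputable abbrev leb : Measure ℝ := volume.restrict (Set.Icc 0 1)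

/-- The space `L^β[0,1]` of complex-valued functions modulo null functions. -/
abbrev L (β : ℝ) : Type := Lp ℂ (ENNReal.ofReal β) leb

/-- `L^γ[0,1]` (complex-valued functions) is a Lipschitz interpolation space with constant `C` between
`L^β[0,1]` and `L^α[0,1]`: every map `U` of `L^β` into itself which maps `L^α` into `L^α` and is Lipschitz
with the constant `M₀` for the `L^β`-norm (on `L^β`) and with the constant `M₁` for the `L^α`-norm (on
`L^α`) maps `L^γ` into `L^γ` and is Lipschitz there with the constant `C max(M₀, M₁)` for the `L^γ`-norm.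
An element `x` of `L^β` is in `L^q` if and only if `MemLp x q leb`. -/
def IsLipschitzInterpolation (β γ α : ℝ) (C : ℝ) : Prop :=
  ∀ (U : L β → L β) (M₀ M₁ : ℝ≥0),
    (∀ x y : L β, eLpNorm (⇑(U x) - ⇑(U y)) (ENNReal.ofReal β) leb ≤
      M₀ * eLpNorm (⇑x - ⇑y) (ENNReal.ofReal β) leb) →
    (∀ x : L β, MemLp x (ENNReal.ofReal α) leb → MemLp (U x) (ENNReal.ofReal α) leb) →
    (∀ x y : L β, MemLp x (ENNReal.ofReal α) leb → MemLp y (ENNReal.ofReal α) leb →
      eLpNorm (⇑(U x) - ⇑(U y)) (ENNReal.ofReal α) leb ≤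
        M₁ * eLpNorm (⇑x - ⇑y) (ENNReal.ofReal α) leb) →
    (∀ x : L β, MemLp x (ENNReal.ofReal γ) leb → MemLp (U x) (ENNReal.ofReal γ) leb) ∧
    (∀ x y : L β, MemLp x (ENNReal.ofReal γ) leb → MemLp y (ENNReal.ofReal γ) leb →
      eLpNorm (⇑(U x) - ⇑(U y)) (ENNReal.ofReal γ) leb ≤
        ENNReal.ofReal (C * (max M₀ M₁ : ℝ≥0)) * eLpNorm (⇑x - ⇑y) (ENNReal.ofReal γ) leb)

/-- **`L^γ[0,1]` is a Lipschitz interpolation space between `L^β[0,1]` and `L^α[0,1]`** for all
`1 ≤ β < γ < α < ∞`. -/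
theorem result : ∀ β γ α : ℝ, 1 ≤ β → β < γ → γ < α →
    ∃ C : ℝ, 0 < C ∧ C = 2 * (γ / (γ - β) + γ / (α - γ)) ^ (1 / γ) ∧
      IsLipschitzInterpolation β γ α C := by
  intro β γ α hβ hβγ hγα
  have h1 : 0 < γ - β := by linarith
  have h2 : 0 < α - γ := by linarith
  have h3 : 0 < γ := by linarith
  refine ⟨_, by positivity, rfl, ?_⟩
  intro U M₀ M₁ hU0 hUα hU1
  have hest := Pool.Agent.K9h27.LI.main_est hβ hβγ hγα U M₀ M₁ hU0 hU1
  refine ⟨fun x hx => ?_, fun x y _ _ => hest x y⟩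
  -- compare with `U 0`
  have h4 : MemLp (⇑(0 : L β)) (ENNReal.ofReal α) leb :=
    (memLp_congr_ae (Lp.coeFn_zero _ _ _)).mpr MemLp.zero
  have h5 : MemLp (U 0) (ENNReal.ofReal γ) leb :=
    (hUα 0 h4).mono_exponent (ENNReal.ofReal_le_ofReal hγα.le)
  have h6 : MemLp (⇑(U x) - ⇑(U 0)) (ENNReal.ofReal γ) leb := by
    refine ⟨(Lp.aestronglyMeasurable _).sub (Lp.aestronglyMeasurable _),
      lt_of_le_of_lt (hest x 0) (ENNReal.mul_lt_top ENNReal.ofReal_lt_top ?_)⟩
    rw [eLpNorm_congr_ae (Filter.EventuallyEq.rfl.sub (Lp.coeFn_zero _ _ _)), sub_zero]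
    exact hx.2
  have h7 : (⇑(U x) : ℝ → ℂ) = (⇑(U x) - ⇑(U 0)) + ⇑(U 0) := by
    funext u; simp
  rw [h7]
  exact h6.add h5

end Pool.Agent.Results.MP_6e3e44_an.LipschitzInterpolation
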